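import Pool.Agent.Q65.Lyness2

/-!
# MP_e65cda_an: boundedness for the Lyness equation with periodic coefficients

The only good period is `p = 2`.
-/

set_option autoImplicit false

namespace Pool.Agent.Results.MP_e65cda_an.GoodPeriods

/-- `x` is a positive solution of `x_{n+1} = (α_n + x_n) / x_{n-1}`; the index is shifted by one,
so `x 0, x 1` stand for `x_{-1}, x_0` -/
def IsPositiveSolution (α : ℕ → ℝ) (x : ℕ → ℝ) : Prop :=
  (∀ n, 0 < x n) ∧ ∀ n, x (n + 2) = (α n + x (n + 1)) / x n

/-- `p` is the least positive integer with `α (n + p) = α n` for all `n` -/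
def IsLeastPeriod (α : ℕ → ℝ) (p : ℕ) : Prop :=
  0 < p ∧ (∀ n, α (n + p) = α n) ∧ ∀ q, 0 < q → (∀ n, α (n + q) = α n) → p ≤ q

/-- `p` is good: for all nonnegative coefficient sequences with least period `p` all positive
solutions are bounded -/
def Good (p : ℕ) : Prop :=
  ∀ α : ℕ → ℝ, (∀ n, 0 ≤ α n) → IsLeastPeriod α p →
    ∀ x : ℕ → ℝ, IsPositiveSolution α x → BddAbove (Set.range x)

/-- **An integer `p ≥ 2` is good if and only if `p = 2`.** -/
theorem result : ∀ p : ℕ, 2 ≤ p → (Good p ↔ p = 2) := by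
  intro p hp
  constructor
  · intro hgood
    by_contra hne
    obtain ⟨α, h0, ⟨h1, h2⟩, x, hx, hun⟩ := Q65.Lyness.bad_all (p := p) (by omega)
    exact hun (hgood α h0 ⟨by omega, h1, h2⟩ x hx)
  · rintro rfl
    intro α h0 hper x hx
    refine Q65.Lyness.two_bdd h0 hper.2.1 ?_ hx
    intro heq
    have h3 : ∀ n, α (n + 1) = α n := by
      intro n
      induction n with
      | zero => exact heq.symm
      | succ n ih => rw [hper.2.1 n, ih]
    have := hper.2.2 1 one_pos h3
    omega

end Pool.Agent.Results.MP_e65cda_an.GoodPeriods
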